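import Mathlib
import Pool.Agent.H52.VC.Defs

set_option autoImplicit false

/-!
PROJECT WL (MP_bf82d2_ag, walls).  Definitions.

`wall a b c` is `M Mᵗ`, `M` the matrix of the intersection numbers of the lifts of two loops which
meet in two points.
-/

namespace Pool.Agent.H78.WL

open Finset Module

variable {G : Type} [Group G] [Fintype G]

open Classical in
/-- `(wall a b c f) x = ∑ h ∈ ⟨a⟩, ∑ k ∈ ⟨b⟩, (f (x h k) - f (x h k c) - f (x h c⁻¹ k) + f (x h c⁻¹ k c))` -/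
noncomputable def wall (a b c : G) (f : G → ℂ) (x : G) : ℂ :=
  ∑ h : Subgroup.zpowers a, ∑ k : Subgroup.zpowers b,
    (f (x * h * k) - f (x * h * k * c) - f (x * h * c⁻¹ * k) + f (x * h * c⁻¹ * k * c))

/-- `|⟨b⟩ ∩ ⟨a⟩| + |c⁻¹ ⟨b⟩ c ∩ ⟨a⟩|` -/
noncomputable def kap (a b c : G) : ℕ :=
  Nat.card {k : G // k ∈ Subgroup.zpowers b ∧ k ∈ Subgroup.zpowers a} +
    Nat.card {k : G // k ∈ Subgroup.zpowers b ∧ c⁻¹ * k * c ∈ Subgroup.zpowers a}

end Pool.Agent.H78.WL
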