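import Pool.Agent.H78.WL.Op

set_option autoImplicit false

/-!
PROJECT WL (MP_bf82d2_ag, walls).  The main theorem.
-/

namespace Pool.Agent.H78.WL

open Finset Module
open Pool.Agent.H52.VC (RC mem_RC dim_RC)

variable {G : Type} [Group G] [Fintype G]

/-- `wall` as a composition -/
noncomputable def wl (a b c : G) : (G → ℂ) →ₗ[ℂ] (G → ℂ) :=
  sm (Subgroup.zpowers a) ∘ₗ ((1 : (G → ℂ) →ₗ[ℂ] (G → ℂ)) - tr c⁻¹) ∘ₗ sm (Subgroup.zpowers b) ∘ₗ
    ((1 : (G → ℂ) →ₗ[ℂ] (G → ℂ)) - tr c)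

theorem wl_apply (a b c : G) (f : G → ℂ) : wl a b c f = sm (Subgroup.zpowers a)
    (((1 : (G → ℂ) →ₗ[ℂ] (G → ℂ)) - tr c⁻¹) (sm (Subgroup.zpowers b)
      (((1 : (G → ℂ) →ₗ[ℂ] (G → ℂ)) - tr c) f))) := rfl

omit [Fintype G] in
theorem one_sub_apply (c : G) (f : G → ℂ) (x : G) :
    ((1 : (G → ℂ) →ₗ[ℂ] (G → ℂ)) - tr c) f x = f x - f (x * c) := rfl

theorem wall_eq (a b c : G) (f : G → ℂ) (x : G) : wall a b c f x = wl a b c f x := by
  classical
  rw [wl_apply, sm_apply]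
  unfold wall
  refine sum_congr rfl fun h _ => ?_
  rw [one_sub_apply, sm_apply, sm_apply, ← sum_sub_distrib]
  refine sum_congr rfl fun k _ => ?_
  rw [one_sub_apply, one_sub_apply]
  ring

theorem wl_mem (a b c : G) (H H' : Subgroup G) (ha : a ∈ H) (hc : c ∈ H) (ha' : a ∈ H') (hcb : c⁻¹ * b ∈ H')
    (f : G → ℂ) : wl a b c f ∈ RC a H H' := by
  classical
  rw [mem_RC, wl_apply]
  set g := sm (Subgroup.zpowers b) (((1 : (G → ℂ) →ₗ[ℂ] (G → ℂ)) - tr c) f) with hg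
  have h0 : ∀ (K : Subgroup G), a ∈ K → (∀ x, sm K (tr c⁻¹ g) x = sm K g x) →
      ∀ x, sm K (sm (Subgroup.zpowers a) (((1 : (G → ℂ) →ₗ[ℂ] (G → ℂ)) - tr c⁻¹) g)) x = 0 := by
    intro K hK h1 x
    rw [sm_sm (Subgroup.zpowers a) K (by rw [Subgroup.zpowers_le]; exact hK)]
    have h2 : sm K (((1 : (G → ℂ) →ₗ[ℂ] (G → ℂ)) - tr c⁻¹) g) x = sm K g x - sm K (tr c⁻¹ g) x := by
      rw [LinearMap.sub_apply, map_sub]
      rfl
    rw [h2, h1 x, sub_self, mul_zero]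
  refine ⟨fun x => ?_, fun x => ?_, fun x => ?_⟩
  · exact sm_inv _ _ x a (Subgroup.mem_zpowers a)
  · exact h0 H ha (fun y => sm_mul H g y c⁻¹ (H.inv_mem hc)) x
  · refine h0 H' ha' (fun y => ?_) x
    have h3 : tr c⁻¹ g = tr (c⁻¹ * b) g := by
      funext z
      rw [tr_apply, tr_apply, ← mul_assoc, hg]
      exact (sm_inv _ _ (z * c⁻¹) b (Subgroup.mem_zpowers b)).symm
    rw [h3]
    exact sm_mul H' g y _ hcb

/-- the operator `K = D e_a` -/
noncomputable def KK (a b c : G) : (G → ℂ) →ₗ[ℂ] (G → ℂ) :=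
  ((Nat.card (Subgroup.zpowers a) : ℂ)⁻¹) • (wl a b c ∘ₗ sm (Subgroup.zpowers a))

theorem KK_apply (a b c : G) (f : G → ℂ) :
    KK a b c f = ((Nat.card (Subgroup.zpowers a) : ℂ)⁻¹) • wl a b c (sm (Subgroup.zpowers a) f) := rfl

theorem LI_wl (a b c : G) : LI (wl a b c) :=
  LI_comp (LI_sm _) (LI_comp (LI_sub LI_one (LI_tr _)) (LI_comp (LI_sm _) (LI_sub LI_one (LI_tr _))))

theorem LI_KK (a b c : G) : LI (KK a b c) := LI_smul _ (LI_comp (LI_wl a b c) (LI_sm _))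

theorem Adj_KK (a b c : G) : Adj (KK a b c) (KK a b c) := by
  have h1 := Adj_tr c⁻¹
  rw [inv_inv] at h1
  have h2 := Adj_tr c
  have h3 := Adj_comp (Adj_comp (Adj_sm (Subgroup.zpowers a)) (Adj_comp (Adj_sub Adj_one h1)
    (Adj_comp (Adj_sm (Subgroup.zpowers b)) (Adj_sub Adj_one h2)))) (Adj_sm (Subgroup.zpowers a))
  exact Adj_smul _ h3

/-- `ia y = 1` if `y ∈ A`, else `0` -/
theorem sm_dl (A : Subgroup G) (g y : G) : sm A (dl g) y = (open Classical in if y⁻¹ * g ∈ A then 1 else 0) := by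
  classical
  rw [sm_apply]
  unfold dl
  by_cases h : y⁻¹ * g ∈ A
  · rw [if_pos h, sum_eq_single (⟨y⁻¹ * g, h⟩ : A)]
    · rw [if_pos (by rw [mul_inv_cancel_left])]
    · intro k _ hk
      rw [if_neg]
      intro h2
      apply hk
      apply Subtype.ext
      show (k : G) = y⁻¹ * g
      rw [← h2, inv_mul_cancel_left]
    · intro h2
      exact absurd (mem_univ _) h2
  · rw [if_neg h]
    refine sum_eq_zero fun k _ => ?_
    rw [if_neg]
    intro h2
    apply h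
    rw [← h2, inv_mul_cancel_left]
    exact k.2

theorem card_A_ne (A : Subgroup G) : (Nat.card A : ℂ) ≠ 0 := by exact_mod_cast Nat.card_pos.ne'

/-- `K δ_1` at `1` -/
theorem kr_one_aux (A B : Subgroup G) (a b c : G) (hA : A = Subgroup.zpowers a) (hB : B = Subgroup.zpowers b)
    (hM : ∀ k ∈ B, ∀ h ∈ A, c ≠ k * h) :
    2 ≤ Nat.card {k : G // k ∈ B ∧ k ∈ A} + Nat.card {k : G // k ∈ B ∧ c⁻¹ * k * c ∈ A} ∧
    Nat.card {k : G // k ∈ B ∧ k ∈ A} + Nat.card {k : G // k ∈ B ∧ c⁻¹ * k * c ∈ A} ≤ 2 * Nat.card A ∧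
    kr (KK a b c) 1 = ((Nat.card {k : G // k ∈ B ∧ k ∈ A} + Nat.card {k : G // k ∈ B ∧ c⁻¹ * k * c ∈ A} : ℕ) : ℂ) := by
  classical
  have h1 : ∀ p : G → Prop, Nat.card {k : G // k ∈ B ∧ p k} = (univ.filter fun k : B => p k).card := by
    intro p
    rw [← Fintype.card_subtype, ← Nat.card_eq_fintype_card]
    refine Nat.card_congr ?_
    exact (Equiv.subtypeSubtypeEquivSubtypeInter (fun k => k ∈ B) p).symm
  rw [h1 (fun k => k ∈ A), h1 (fun k => c⁻¹ * k * c ∈ A)]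
  clear h1
  have hAc : Fintype.card A = Nat.card A := (Nat.card_eq_fintype_card).symm
  refine ⟨?_, ?_, ?_⟩
  · have h1 : 0 < (univ.filter fun k : B => (k : G) ∈ A).card :=
      card_pos.2 ⟨1, mem_filter.2 ⟨mem_univ _, A.one_mem⟩⟩
    have h2 : 0 < (univ.filter fun k : B => c⁻¹ * k * c ∈ A).card := by
      refine card_pos.2 ⟨1, mem_filter.2 ⟨mem_univ _, ?_⟩⟩
      show c⁻¹ * 1 * c ∈ A
      rw [mul_one, inv_mul_cancel]
      exact A.one_mem
    omega
  · have h1 : (univ.filter fun k : B => (k : G) ∈ A).card ≤ Nat.card A := by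
      rw [← hAc, ← card_univ]
      refine card_le_card_of_injOn (fun k : B => if h : (k : G) ∈ A then (⟨k, h⟩ : A) else 1) (fun k _ => mem_univ _) ?_
      intro k hk l hl hkl
      have hk' : (k : G) ∈ A := by simpa using hk
      have hl' : (l : G) ∈ A := by simpa using hl
      simp only [dif_pos hk', dif_pos hl'] at hkl
      exact Subtype.ext (Subtype.mk.inj hkl)
    have h2 : (univ.filter fun k : B => c⁻¹ * k * c ∈ A).card ≤ Nat.card A := by
      rw [← hAc, ← card_univ]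
      refine card_le_card_of_injOn (fun k : B => if h : c⁻¹ * (k : G) * c ∈ A then (⟨_, h⟩ : A) else 1)
        (fun k _ => mem_univ _) ?_
      intro k hk l hl hkl
      have hk' : c⁻¹ * (k : G) * c ∈ A := by simpa using hk
      have hl' : c⁻¹ * (l : G) * c ∈ A := by simpa using hl
      simp only [dif_pos hk', dif_pos hl'] at hkl
      have h3 : c⁻¹ * (k : G) * c = c⁻¹ * (l : G) * c := congrArg Subtype.val hkl
      exact Subtype.ext (mul_left_cancel (mul_right_cancel h3))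
    omega
  · have h0 : kr (KK a b c) 1 = (Nat.card A : ℂ)⁻¹ * wall a b c (sm A (dl 1)) 1 := by
      subst hA
      rw [wall_eq]
      rfl
    have h1 : wall a b c (sm A (dl 1)) 1 = ∑ h : A, ∑ k : B, ((if (k : G) ∈ A then (1 : ℂ) else 0) +
        if c⁻¹ * (k : G) * c ∈ A then (1 : ℂ) else 0) := by
      have hw : wall a b c (sm A (dl 1)) 1 = ∑ h : A, ∑ k : B, (sm A (dl 1) (1 * h * k) - sm A (dl 1) (1 * h * k * c) -
          sm A (dl 1) (1 * h * c⁻¹ * k) + sm A (dl 1) (1 * h * c⁻¹ * k * c)) := by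
        subst hA hB
        rfl
      rw [hw]
      refine sum_congr rfl fun h _ => sum_congr rfl fun k _ => ?_
      rw [sm_dl, sm_dl, sm_dl, sm_dl]
      have e1 : ((1 * (h : G) * k)⁻¹ * 1 ∈ A) ↔ (k : G) ∈ A := by
        rw [mul_one, one_mul, Subgroup.inv_mem_iff _, Subgroup.mul_mem_cancel_left _ h.2]
      have e2 : ¬ ((1 * (h : G) * k * c)⁻¹ * 1 ∈ A) := by
        rw [mul_one, one_mul, Subgroup.inv_mem_iff _, mul_assoc, Subgroup.mul_mem_cancel_left _ h.2]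
        intro h3
        apply hM (k : G)⁻¹ (Subgroup.inv_mem _ k.2) ((k : G) * c) h3
        rw [inv_mul_cancel_left]
      have e3 : ¬ ((1 * (h : G) * c⁻¹ * k)⁻¹ * 1 ∈ A) := by
        rw [mul_one, one_mul, Subgroup.inv_mem_iff _, mul_assoc, Subgroup.mul_mem_cancel_left _ h.2]
        intro h3
        apply hM (k : G) k.2 ((c⁻¹ * (k : G))⁻¹) (Subgroup.inv_mem _ h3)
        group
      have e4 : ((1 * (h : G) * c⁻¹ * k * c)⁻¹ * 1 ∈ A) ↔ c⁻¹ * (k : G) * c ∈ A := by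
        rw [mul_one, one_mul, Subgroup.inv_mem_iff _, mul_assoc, mul_assoc, Subgroup.mul_mem_cancel_left _ h.2, mul_assoc]
      rw [if_neg e2, if_neg e3, sub_zero, sub_zero]
      congr 1
      · by_cases h4 : (k : G) ∈ A
        · rw [if_pos h4, if_pos (e1.2 h4)]
        · rw [if_neg h4, if_neg (fun h5 => h4 (e1.1 h5))]
      · by_cases h4 : c⁻¹ * (k : G) * c ∈ A
        · rw [if_pos h4, if_pos (e4.2 h4)]
        · rw [if_neg h4, if_neg (fun h5 => h4 (e4.1 h5))]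
    rw [h0, h1, sum_const, card_univ, nsmul_eq_mul, hAc, ← mul_assoc, inv_mul_cancel₀ (card_A_ne A), one_mul,
      sum_add_distrib, sum_boole, sum_boole]
    push_cast
    rfl

theorem kr_one (a b c : G) (hM : ∀ k ∈ Subgroup.zpowers b, ∀ h ∈ Subgroup.zpowers a, c ≠ k * h) :
    2 ≤ kap a b c ∧ kap a b c ≤ 2 * Nat.card (Subgroup.zpowers a) ∧ kr (KK a b c) 1 = kap a b c :=
  kr_one_aux _ _ a b c rfl rfl hM

theorem RC_inv (a : G) (H H' : Subgroup G) (f : G → ℂ) (hf : f ∈ RC a H H') (x : G) :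
    ∀ g ∈ Subgroup.zpowers a, f (x * g) = f x := by
  have h1 : Subgroup.zpowers a ≤
      { carrier := {g | ∀ y, f (y * g) = f y}
        mul_mem' := by
          intro g k hg hk y
          rw [← mul_assoc, hk, hg]
        one_mem' := by
          intro y
          rw [mul_one]
        inv_mem' := by
          intro g hg y
          have h2 := hg (y * g⁻¹)
          rw [inv_mul_cancel_right] at h2
          exact h2.symm } := by
    rw [Subgroup.zpowers_le]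
    exact hf.1
  intro g hg
  exact h1 hg x

theorem KK_RC (a b c : G) (H H' : Subgroup G) (μ : ℂ) (hμ : ∀ f ∈ RC a H H', ∀ x, wall a b c f x = μ * f x)
    (f : G → ℂ) (hf : f ∈ RC a H H') : KK a b c f = μ • f := by
  have h1 : sm (Subgroup.zpowers a) f = (Nat.card (Subgroup.zpowers a) : ℂ) • f := by
    funext x
    exact sm_const _ f (fun y g hg => RC_inv a H H' f hf y g hg) x
  rw [KK_apply, h1, map_smul, smul_smul, inv_mul_cancel₀ (card_A_ne _), one_smul]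
  funext x
  rw [← wall_eq]
  exact hμ f hf x

theorem KK_mem (a b c : G) (H H' : Subgroup G) (ha : a ∈ H) (hc : c ∈ H) (ha' : a ∈ H') (hcb : c⁻¹ * b ∈ H')
    (f : G → ℂ) : KK a b c f ∈ RC a H H' :=
  (RC a H H').smul_mem _ (wl_mem a b c H H' ha hc ha' hcb _)

theorem trace_KK (a b c : G) (H H' : Subgroup G) (ha : a ∈ H) (hc : c ∈ H) (ha' : a ∈ H') (hcb : c⁻¹ * b ∈ H')
    (μ : ℂ) (hμ : ∀ f ∈ RC a H H', ∀ x, wall a b c f x = μ * f x) :
    LinearMap.trace ℂ (G → ℂ) (KK a b c) = μ * finrank ℂ (RC a H H') := by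
  have h1 := LinearMap.trace_restrict_eq_of_forall_mem (RC a H H') (KK a b c)
    (fun f => KK_mem a b c H H' ha hc ha' hcb f)
  have h2 : (KK a b c).restrict (fun f _ => KK_mem a b c H H' ha hc ha' hcb f) =
      μ • (LinearMap.id : RC a H H' →ₗ[ℂ] RC a H H') := by
    refine LinearMap.ext fun f => Subtype.ext ?_
    exact KK_RC a b c H H' μ hμ f f.2
  rw [← h1, h2, map_smul, LinearMap.trace_id, smul_eq_mul]

theorem sm_KK (a b c : G) (f : G → ℂ) :
    sm (Subgroup.zpowers a) (KK a b c f) = (Nat.card (Subgroup.zpowers a) : ℂ) • KK a b c f := by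
  funext x
  refine sm_const _ _ (fun y g hg => ?_) x
  show _ * wl a b c _ (y * g) = _ * wl a b c _ y
  congr 1
  exact sm_inv _ _ y g hg

theorem sm_self (A : Subgroup G) (f : G → ℂ) : sm A (sm A f) = (Nat.card A : ℂ) • sm A f := by
  funext x
  exact sm_sm A A (le_refl A) f x

theorem KK_sm (a b c : G) (f : G → ℂ) :
    KK a b c (sm (Subgroup.zpowers a) f) = (Nat.card (Subgroup.zpowers a) : ℂ) • KK a b c f := by
  rw [KK_apply, sm_self, map_smul, smul_comm]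
  rfl

/-- the idempotent `q` -/
noncomputable def QQ (a b c : G) (μ : ℂ) : (G → ℂ) →ₗ[ℂ] (G → ℂ) :=
  ((Nat.card (Subgroup.zpowers a) : ℂ)⁻¹) • sm (Subgroup.zpowers a) - μ⁻¹ • KK a b c

theorem QQ_apply (a b c : G) (μ : ℂ) (f : G → ℂ) : QQ a b c μ f =
    ((Nat.card (Subgroup.zpowers a) : ℂ)⁻¹) • sm (Subgroup.zpowers a) f - μ⁻¹ • KK a b c f := rfl

theorem QQ_idem (a b c : G) (μ : ℂ) (hμ0 : μ ≠ 0) (hKK : ∀ f, KK a b c (KK a b c f) = μ • KK a b c f)
    (f : G → ℂ) : QQ a b c μ (QQ a b c μ f) = QQ a b c μ f := by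
  have hA := card_A_ne (Subgroup.zpowers a)
  rw [QQ_apply a b c μ (QQ a b c μ f), QQ_apply a b c μ f, map_sub, map_sub, map_smul, map_smul, map_smul,
    map_smul, sm_self, sm_KK, KK_sm, hKK]
  funext x
  simp only [Pi.sub_apply, Pi.smul_apply, smul_eq_mul]
  field_simp
  ring

theorem LI_QQ (a b c : G) (μ : ℂ) : LI (QQ a b c μ) := LI_sub (LI_smul _ (LI_sm _)) (LI_smul _ (LI_KK a b c))

theorem Adj_QQ (a b c : G) (μ : ℂ) : Adj (QQ a b c μ) (QQ a b c μ) :=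
  Adj_sub (Adj_smul _ (Adj_sm _)) (Adj_smul _ (Adj_KK a b c))

theorem Itg_dl (g : G) : ∀ x, ∃ z : ℤ, dl g x = z := by
  classical
  intro x
  unfold dl
  by_cases h : x = g
  · exact ⟨1, by rw [if_pos h]; norm_num⟩
  · exact ⟨0, by rw [if_neg h]; norm_num⟩

theorem kr_int (a b c g : G) : ∃ z : ℤ, kr (KK a b c) g = (Nat.card (Subgroup.zpowers a) : ℂ)⁻¹ * z := by
  have h1 : Itg (wl a b c ∘ₗ sm (Subgroup.zpowers a)) :=
    Itg_comp (Itg_comp (Itg_sm _) (Itg_comp (Itg_sub Itg_one (Itg_tr _)) (Itg_comp (Itg_sm _)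
      (Itg_sub Itg_one (Itg_tr _))))) (Itg_sm _)
  obtain ⟨z, hz⟩ := h1 (dl g) (Itg_dl g) 1
  refine ⟨z, ?_⟩
  rw [← hz]
  rfl

/-- some coefficient outside `⟨a⟩` is not zero -/
theorem exists_ne (a b c : G) (h1 : kr (KK a b c) 1 ≠ 0) : ∃ g, g ∉ Subgroup.zpowers a ∧ kr (KK a b c) g ≠ 0 := by
  classical
  by_contra hcon
  push Not at hcon
  have h2 : ∑ g : G, kr (KK a b c) g = 0 := by
    have h3 : ∑ g : G, kr (KK a b c) g = KK a b c (∑ g : G, dl g) 1 := by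
      rw [map_sum, Finset.sum_apply]
      rfl
    have h4 : (∑ g : G, dl g : G → ℂ) = fun _ => 1 := by
      funext x
      rw [Finset.sum_apply]
      unfold dl
      rw [sum_ite_eq, if_pos (mem_univ x)]
    have h5 : wl a b c (sm (Subgroup.zpowers a) fun _ => 1) = 0 := by
      rw [wl_apply]
      have h6 : ((1 : (G → ℂ) →ₗ[ℂ] (G → ℂ)) - tr c) (sm (Subgroup.zpowers a) fun _ => 1) = 0 := by
        funext x
        rw [one_sub_apply, sm_apply, sm_apply, sub_self]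
        rfl
      rw [h6, map_zero, map_zero, map_zero]
    rw [h3, h4, KK_apply, h5, smul_zero]
    rfl
  have h3 : ∀ g, kr (KK a b c) g = if g ∈ Subgroup.zpowers a then kr (KK a b c) 1 else 0 := by
    intro g
    by_cases hg : g ∈ Subgroup.zpowers a
    · rw [if_pos hg]
      unfold kr
      have h4 : sm (Subgroup.zpowers a) (dl g) = sm (Subgroup.zpowers a) (dl 1) := by
        funext y
        rw [sm_dl, sm_dl, mul_one]
        have h5 : y⁻¹ * g ∈ Subgroup.zpowers a ↔ y⁻¹ ∈ Subgroup.zpowers a :=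
          (Subgroup.zpowers a).mul_mem_cancel_right hg
        by_cases h6 : y⁻¹ ∈ Subgroup.zpowers a
        · rw [if_pos h6, if_pos (h5.2 h6)]
        · rw [if_neg h6, if_neg (fun h7 => h6 (h5.1 h7))]
      rw [KK_apply, KK_apply, h4]
    · rw [if_neg hg]
      exact hcon g hg
  rw [sum_congr rfl fun g _ => h3 g, ← sum_filter, sum_const, nsmul_eq_mul, mul_eq_zero] at h2
  rcases h2 with h2 | h2
  · have h4 : 0 < (univ.filter fun g : G => g ∈ Subgroup.zpowers a).card :=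
      card_pos.2 ⟨1, mem_filter.2 ⟨mem_univ _, (Subgroup.zpowers a).one_mem⟩⟩
    have h5 : ((univ.filter fun g : G => g ∈ Subgroup.zpowers a).card : ℂ) ≠ 0 := by exact_mod_cast h4.ne'
    exact h5 h2
  · exact h1 h2

/-- The main inequality. -/
theorem main (a b c : G) (H H' : Subgroup G) (ha : a ∈ H) (hc : c ∈ H) (ha' : a ∈ H') (hcb : c⁻¹ * b ∈ H')
    (hM : ∀ k ∈ Subgroup.zpowers b, ∀ h ∈ Subgroup.zpowers a, c ≠ k * h)
    (μ : ℂ) (hμ : ∀ f ∈ RC a H H', ∀ x, wall a b c f x = μ * f x) :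
    1 / ((orderOf a : ℝ) * (orderOf a * kap a b c + 1)) ≤ 1 / (Nat.card H : ℝ) + 1 / (Nat.card H' : ℝ) := by
  classical
  obtain ⟨hκ2, hκe, hκ⟩ := kr_one a b c hM
  set κ := kap a b c with hκdef
  have hea : Nat.card (Subgroup.zpowers a) = orderOf a := Nat.card_zpowers a
  rw [hea] at hκe
  set e := orderOf a with he
  have he0 : (0 : ℝ) < e := by exact_mod_cast orderOf_pos a
  set n := Nat.card G with hn
  have hn0 : (0 : ℝ) < n := by exact_mod_cast Nat.card_pos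
  set r := finrank ℂ (RC a H H') with hr
  have hκ0 : (0 : ℝ) < κ := by
    have : 0 < κ := by omega
    exact_mod_cast this
  have htr := trace_KK a b c H H' ha hc ha' hcb μ hμ
  rw [trace_eq (LI_KK a b c), hκ] at htr
  have hr0 : (r : ℂ) ≠ 0 := by
    intro h0
    rw [h0, mul_zero] at htr
    have h1 : (n : ℂ) ≠ 0 := by exact_mod_cast hn0.ne'
    have h2 : (κ : ℂ) ≠ 0 := by exact_mod_cast hκ0.ne'
    exact mul_ne_zero h1 h2 htr
  have hr1 : (0 : ℝ) < r := by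
    have : r ≠ 0 := by exact_mod_cast hr0
    exact_mod_cast Nat.pos_of_ne_zero this
  obtain ⟨m, hm⟩ : ∃ m : ℝ, m = n * κ / r := ⟨_, rfl⟩
  have hm0 : 0 < m := by rw [hm]; positivity
  have hμm : μ = (m : ℂ) := by
    rw [hm]
    push_cast
    rw [eq_div_iff hr0]
    exact htr.symm
  have hμ0 : μ ≠ 0 := by
    rw [hμm]
    exact_mod_cast hm0.ne'
  have hKK : ∀ f, KK a b c (KK a b c f) = μ • KK a b c f := fun f =>
    KK_RC a b c H H' μ hμ _ (KK_mem a b c H H' ha hc ha' hcb f)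
  choose z hz using kr_int a b c
  obtain ⟨q, hq⟩ : ∃ q : G → ℝ, q = fun g => (if g ∈ Subgroup.zpowers a then (e : ℝ)⁻¹ else 0) - m⁻¹ * ((e : ℝ)⁻¹ * z g) :=
    ⟨_, rfl⟩
  have hkq : ∀ g, kr (QQ a b c μ) g = q g := by
    intro g
    have h1 : kr (QQ a b c μ) g = (Nat.card (Subgroup.zpowers a) : ℂ)⁻¹ * sm (Subgroup.zpowers a) (dl g) 1 -
        μ⁻¹ * kr (KK a b c) g := rfl
    rw [h1, sm_dl, hz g, hμm, hq, inv_one, one_mul, hea]
    by_cases hg : g ∈ Subgroup.zpowers a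
    · simp only [if_pos hg]
      push_cast
      ring
    · simp only [if_neg hg]
      push_cast
      ring
  have hle := kr_le (LI_QQ a b c μ) (Adj_QQ a b c μ) (QQ_idem a b c μ hμ0 hKK) q hkq
  have hq1 : q 1 = 1 / e - r / n := by
    have h1 : ((e : ℝ)⁻¹ * z 1 : ℝ) = κ := by
      have h2 := hz 1
      rw [hκ, hea] at h2
      have h3 : ((κ : ℝ) : ℂ) = (((e : ℝ)⁻¹ * z 1 : ℝ) : ℂ) := by
        push_cast
        exact h2
      exact_mod_cast h3.symm
    rw [hq]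
    simp only [if_pos (Subgroup.zpowers a).one_mem]
    rw [h1, hm]
    field_simp
  obtain ⟨g, hg, hg0⟩ := exists_ne a b c (by rw [hκ]; exact_mod_cast hκ0.ne')
  have hzg : z g ≠ 0 := by
    intro h0
    apply hg0
    rw [hz g, h0]
    simp
  have hqg : 1 / (e * m) ≤ |q g| := by
    have h1 : q g = - (m⁻¹ * ((e : ℝ)⁻¹ * z g)) := by
      rw [hq]
      simp only [if_neg hg]
      ring
    rw [h1, abs_neg, abs_mul, abs_mul, abs_of_pos (inv_pos.2 hm0), abs_of_pos (inv_pos.2 he0)]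
    have h2 : (1 : ℝ) ≤ |(z g : ℝ)| := by
      have h3 : 1 ≤ |z g| := Int.one_le_abs hzg
      exact_mod_cast h3
    have h4 : 1 / (e * m) = m⁻¹ * ((e : ℝ)⁻¹ * 1) := by
      field_simp
    rw [h4]
    exact mul_le_mul_of_nonneg_left (mul_le_mul_of_nonneg_left h2 (by positivity)) (by positivity)
  have hfin := hqg.trans (hle g)
  rw [hq1] at hfin
  have hdim := dim_RC a H H'
  rw [← hn, ← hr, ← he] at hdim
  -- `t = r / n`
  obtain ⟨t, ht⟩ : ∃ t : ℝ, t = r / n := ⟨_, rfl⟩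
  have ht0 : 0 < t := by rw [ht]; positivity
  have h1 : 1 / (e * m) = t / (e * κ) := by
    rw [hm, ht]
    field_simp
  rw [h1, ← ht] at hfin
  have h2 : 1 / (e : ℝ) - (1 / (Nat.card H : ℝ) + 1 / (Nat.card H' : ℝ)) ≤ t := by
    rw [ht, le_div_iff₀ hn0]
    have h3 : (1 / (e : ℝ) - (1 / (Nat.card H : ℝ) + 1 / (Nat.card H' : ℝ))) * n =
        n / e - n / Nat.card H - n / Nat.card H' := by ring
    rw [h3]
    exact hdim
  have hκe' : (κ : ℝ) ≤ 2 * e := by exact_mod_cast hκe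
  -- `t ≤ κ / (e κ + 1)`
  have h4 : t * (e * κ + 1) ≤ κ := by
    have h5 : t / (e * κ) * (e * κ) = t := by field_simp
    have h6 : (1 / (e : ℝ) - t) * (e * κ) = κ - t * (e * κ) := by field_simp
    have h7 := mul_le_mul_of_nonneg_right hfin (by positivity : (0 : ℝ) ≤ e * κ)
    rw [h5, h6] at h7
    linarith
  have h8 : t ≤ κ / (e * κ + 1) := by
    rw [le_div_iff₀ (by positivity)]
    exact h4
  have h9 : (1 : ℝ) / e - κ / (e * κ + 1) = 1 / (e * (e * κ + 1)) := by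
    field_simp
    ring
  linarith

/-- The main theorem in terms of the local monodromies. -/
theorem main4 (s : Fin 4 → G) (hprod : s 0 * s 1 * s 2 * s 3 = 1)
    (hM : ∀ k ∈ Subgroup.zpowers (s 1 * s 2), ∀ h ∈ Subgroup.zpowers (s 0 * s 1), s 1 ≠ k * h)
    (μ : ℂ) (hμ : ∀ f ∈ RC (s 0 * s 1) (Subgroup.closure {s 0, s 1}) (Subgroup.closure {s 2, s 3}),
      ∀ x, wall (s 0 * s 1) (s 1 * s 2) (s 1) f x = μ * f x) :
    1 ≤ (orderOf (s 0 * s 1) : ℝ) * (orderOf (s 0 * s 1) * kap (s 0 * s 1) (s 1 * s 2) (s 1) + 1) *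
        (1 / (Nat.card (Subgroup.closure {s 0, s 1}) : ℝ) + 1 / (Nat.card (Subgroup.closure {s 2, s 3}) : ℝ)) ∧
      (Nat.card (Subgroup.closure {s 0, s 1}) ≤ 4 * orderOf (s 0 * s 1) ^ 3 + 2 * orderOf (s 0 * s 1) ∨
        Nat.card (Subgroup.closure {s 2, s 3}) ≤ 4 * orderOf (s 0 * s 1) ^ 3 + 2 * orderOf (s 0 * s 1)) := by
  have m0 : s 0 ∈ Subgroup.closure {s 0, s 1} := Subgroup.subset_closure (Or.inl rfl)
  have m1 : s 1 ∈ Subgroup.closure {s 0, s 1} := Subgroup.subset_closure (Or.inr rfl)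
  have m2 : s 2 ∈ Subgroup.closure {s 2, s 3} := Subgroup.subset_closure (Or.inl rfl)
  have m3 : s 3 ∈ Subgroup.closure {s 2, s 3} := Subgroup.subset_closure (Or.inr rfl)
  have ha : s 0 * s 1 ∈ Subgroup.closure {s 2, s 3} := by
    have h1 : s 0 * s 1 = (s 2 * s 3)⁻¹ := by
      rw [eq_inv_iff_mul_eq_one, ← mul_assoc, hprod]
    rw [h1]
    exact Subgroup.inv_mem _ (Subgroup.mul_mem _ m2 m3)
  have hcb : (s 1)⁻¹ * (s 1 * s 2) ∈ Subgroup.closure {s 2, s 3} := by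
    rw [inv_mul_cancel_left]
    exact m2
  have h1 := main (s 0 * s 1) (s 1 * s 2) (s 1) _ _ (Subgroup.mul_mem _ m0 m1) m1 ha hcb hM μ hμ
  obtain ⟨hk2, hke, -⟩ := kr_one (s 0 * s 1) (s 1 * s 2) (s 1) hM
  rw [Nat.card_zpowers] at hke
  set e := orderOf (s 0 * s 1) with he
  set κ := kap (s 0 * s 1) (s 1 * s 2) (s 1) with hκ
  set p := Nat.card (Subgroup.closure {s 0, s 1}) with hp
  set r := Nat.card (Subgroup.closure {s 2, s 3}) with hr
  have he0 : (0 : ℝ) < e := by exact_mod_cast orderOf_pos (s 0 * s 1)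
  have hpos : (0 : ℝ) < (e : ℝ) * (e * κ + 1) := by positivity
  have h2 : 1 ≤ (e : ℝ) * (e * κ + 1) * (1 / (p : ℝ) + 1 / (r : ℝ)) := by
    rw [div_le_iff₀ hpos] at h1
    linarith
  refine ⟨h2, ?_⟩
  by_contra hcon
  push Not at hcon
  obtain ⟨h3, h4⟩ := hcon
  have h3' : (4 * (e : ℝ) ^ 3 + 2 * e) < p := by exact_mod_cast h3
  have h4' : (4 * (e : ℝ) ^ 3 + 2 * e) < r := by exact_mod_cast h4
  have hke' : (κ : ℝ) ≤ 2 * e := by exact_mod_cast hke
  have hq : (0 : ℝ) < 4 * (e : ℝ) ^ 3 + 2 * e := by positivity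
  have h5 : 1 / (p : ℝ) < 1 / (4 * (e : ℝ) ^ 3 + 2 * e) := one_div_lt_one_div_of_lt hq h3'
  have h6 : 1 / (r : ℝ) < 1 / (4 * (e : ℝ) ^ 3 + 2 * e) := one_div_lt_one_div_of_lt hq h4'
  have h7 : (e : ℝ) * (e * κ + 1) ≤ (4 * (e : ℝ) ^ 3 + 2 * e) / 2 := by nlinarith [mul_pos he0 he0]
  have h8 : (e : ℝ) * (e * κ + 1) * (1 / (p : ℝ) + 1 / (r : ℝ)) <
      (e : ℝ) * (e * κ + 1) * (2 * (1 / (4 * (e : ℝ) ^ 3 + 2 * e))) :=
    mul_lt_mul_of_pos_left (by linarith) hpos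
  have h9 : (e : ℝ) * (e * κ + 1) * (2 * (1 / (4 * (e : ℝ) ^ 3 + 2 * e))) ≤
      (4 * (e : ℝ) ^ 3 + 2 * e) / 2 * (2 * (1 / (4 * (e : ℝ) ^ 3 + 2 * e))) :=
    mul_le_mul_of_nonneg_right h7 (by positivity)
  have h10 : (4 * (e : ℝ) ^ 3 + 2 * e) / 2 * (2 * (1 / (4 * (e : ℝ) ^ 3 + 2 * e))) = 1 := by
    field_simp
  linarith

end Pool.Agent.H78.WL
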