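import Pool.Agent.H78.WL.Defs
import Pool.Agent.H52.VC.Dmr

set_option autoImplicit false

/-!
PROJECT WL (MP_bf82d2_ag, walls).  Operators commuting with the left translations.
-/

namespace Pool.Agent.H78.WL

open Finset Module
open Pool.Agent.H52.VC (RC mem_RC dim_RC)

variable {G : Type} [Group G] [Fintype G]

omit [Fintype G] in
/-- right translation -/
def tr (g : G) : (G → ℂ) →ₗ[ℂ] (G → ℂ) where
  toFun f x := f (x * g)
  map_add' _ _ := rfl
  map_smul' _ _ := rfl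

omit [Fintype G] in
theorem tr_apply (g : G) (f : G → ℂ) (x : G) : tr g f x = f (x * g) := rfl

open Classical in
/-- the sum over the left cosets of `S` -/
noncomputable def sm (S : Subgroup G) : (G → ℂ) →ₗ[ℂ] (G → ℂ) where
  toFun f x := ∑ h : S, f (x * h)
  map_add' f k := by
    funext x
    exact sum_add_distrib
  map_smul' c f := by
    funext x
    show ∑ h : S, c * f (x * h) = c * ∑ h : S, f (x * h)
    rw [mul_sum]

open Classical in
theorem sm_apply (S : Subgroup G) (f : G → ℂ) (x : G) : sm S f x = ∑ h : S, f (x * h) := rfl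

/-- reindexing -/
theorem sm_mul (S : Subgroup G) (f : G → ℂ) (x : G) (g : G) (hg : g ∈ S) :
    sm S (tr g f) x = sm S f x := by
  classical
  rw [sm_apply, sm_apply]
  refine Fintype.sum_equiv (Equiv.mulRight (⟨g, hg⟩ : S)) _ _ fun h => ?_
  show f (x * h * g) = f (x * (h * g))
  rw [mul_assoc]

theorem sm_inv (S : Subgroup G) (f : G → ℂ) (x : G) (g : G) (hg : g ∈ S) :
    sm S f (x * g) = sm S f x := by
  classical
  rw [sm_apply, sm_apply]
  refine Fintype.sum_equiv (Equiv.mulLeft (⟨g, hg⟩ : S)) _ _ fun h => ?_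
  show f (x * g * h) = f (x * (g * h))
  rw [mul_assoc]

/-- on an `S`-invariant function -/
theorem sm_const (S : Subgroup G) (f : G → ℂ) (hf : ∀ x, ∀ g ∈ S, f (x * g) = f x) (x : G) :
    sm S f x = Nat.card S * f x := by
  classical
  rw [sm_apply, sum_congr rfl fun (h : S) _ => hf x h h.2, sum_const, card_univ, nsmul_eq_mul,
    ← Nat.card_eq_fintype_card]

theorem sm_sm (A H : Subgroup G) (hA : A ≤ H) (f : G → ℂ) (x : G) :
    sm H (sm A f) x = Nat.card A * sm H f x := by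
  classical
  have h1 : sm H (sm A f) x = ∑ k : A, ∑ h : H, f (x * h * k) := by
    rw [sm_apply, sum_comm]
    rfl
  have h2 : ∀ k : A, ∑ h : H, f (x * h * k) = sm H f x := fun k => sm_mul H f x k (hA k.2)
  rw [h1, sum_congr rfl fun k _ => h2 k, sum_const, card_univ, nsmul_eq_mul, ← Nat.card_eq_fintype_card]

/-- commuting with left translations -/
def LI (T : (G → ℂ) →ₗ[ℂ] (G → ℂ)) : Prop := ∀ (y : G) (f : G → ℂ) (x : G), T (fun z => f (y * z)) x = T f (y * x)

/-- adjoint operators -/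
def Adj (T T' : (G → ℂ) →ₗ[ℂ] (G → ℂ)) : Prop := ∀ f k : G → ℂ, ∑ x, T f x * k x = ∑ x, f x * T' k x

/-- integral operators -/
def Itg (T : (G → ℂ) →ₗ[ℂ] (G → ℂ)) : Prop :=
  ∀ f : G → ℂ, (∀ x, ∃ z : ℤ, f x = z) → ∀ x, ∃ z : ℤ, T f x = z

omit [Fintype G] in
theorem LI_tr (g : G) : LI (tr g) := fun y f x => by
  show f (y * (x * g)) = f (y * x * g)
  rw [mul_assoc]

theorem LI_sm (S : Subgroup G) : LI (sm S) := fun y f x => by
  classical
  rw [sm_apply, sm_apply]
  exact sum_congr rfl fun h _ => by rw [mul_assoc]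

omit [Fintype G] in
theorem LI_comp {T U : (G → ℂ) →ₗ[ℂ] (G → ℂ)} (hT : LI T) (hU : LI U) : LI (T ∘ₗ U) := fun y f x => by
  have h1 : U (fun z => f (y * z)) = fun z => U f (y * z) := funext fun z => hU y f z
  show T (U (fun z => f (y * z))) x = T (U f) (y * x)
  rw [h1]
  exact hT y (U f) x

omit [Fintype G] in
theorem LI_sub {T U : (G → ℂ) →ₗ[ℂ] (G → ℂ)} (hT : LI T) (hU : LI U) : LI (T - U) := fun y f x => by
  show T (fun z => f (y * z)) x - U (fun z => f (y * z)) x = T f (y * x) - U f (y * x)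
  rw [hT y f x, hU y f x]

omit [Fintype G] in
theorem LI_smul (c : ℂ) {T : (G → ℂ) →ₗ[ℂ] (G → ℂ)} (hT : LI T) : LI (c • T) := fun y f x => by
  show c * T (fun z => f (y * z)) x = c * T f (y * x)
  rw [hT y f x]

omit [Fintype G] in
theorem LI_one : LI (1 : (G → ℂ) →ₗ[ℂ] (G → ℂ)) := fun _ _ _ => rfl

theorem Adj_tr (g : G) : Adj (tr g) (tr g⁻¹) := fun f k => by
  refine Fintype.sum_equiv (Equiv.mulRight g) _ _ fun x => ?_
  show f (x * g) * k x = f (x * g) * k (x * g * g⁻¹)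
  rw [mul_inv_cancel_right]

theorem Adj_sm (S : Subgroup G) : Adj (sm S) (sm S) := fun f k => by
  classical
  have h1 : ∑ x, sm S f x * k x = ∑ h : S, ∑ x, f (x * h) * k x := by
    rw [sum_comm]
    exact sum_congr rfl fun x _ => by rw [sm_apply, sum_mul]
  have h2 : ∑ x, f x * sm S k x = ∑ h : S, ∑ x, f x * k (x * h) := by
    rw [sum_comm]
    exact sum_congr rfl fun x _ => by rw [sm_apply, mul_sum]
  rw [h1, h2]
  refine Fintype.sum_equiv (Equiv.inv S) _ _ fun h => ?_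
  exact Adj_tr (h : G) f k

theorem Adj_comp {T T' U U' : (G → ℂ) →ₗ[ℂ] (G → ℂ)} (hT : Adj T T') (hU : Adj U U') :
    Adj (T ∘ₗ U) (U' ∘ₗ T') := fun f k => by
  show ∑ x, T (U f) x * k x = ∑ x, f x * U' (T' k) x
  rw [hT (U f) k, hU f (T' k)]

theorem Adj_sub {T T' U U' : (G → ℂ) →ₗ[ℂ] (G → ℂ)} (hT : Adj T T') (hU : Adj U U') :
    Adj (T - U) (T' - U') := fun f k => by
  have h1 : ∑ x, (T - U) f x * k x = ∑ x, T f x * k x - ∑ x, U f x * k x := by
    rw [← sum_sub_distrib]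
    exact sum_congr rfl fun x _ => by
      show (T f x - U f x) * k x = _
      ring
  have h2 : ∑ x, f x * (T' - U') k x = ∑ x, f x * T' k x - ∑ x, f x * U' k x := by
    rw [← sum_sub_distrib]
    exact sum_congr rfl fun x _ => by
      show f x * (T' k x - U' k x) = _
      ring
  rw [h1, h2, hT f k, hU f k]

theorem Adj_smul (c : ℂ) {T T' : (G → ℂ) →ₗ[ℂ] (G → ℂ)} (hT : Adj T T') : Adj (c • T) (c • T') := fun f k => by
  have h1 : ∑ x, (c • T) f x * k x = c * ∑ x, T f x * k x := by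
    rw [mul_sum]
    exact sum_congr rfl fun x _ => by
      show c * T f x * k x = _
      ring
  have h2 : ∑ x, f x * (c • T') k x = c * ∑ x, f x * T' k x := by
    rw [mul_sum]
    exact sum_congr rfl fun x _ => by
      show f x * (c * T' k x) = _
      ring
  rw [h1, h2, hT f k]

theorem Adj_one : Adj (1 : (G → ℂ) →ₗ[ℂ] (G → ℂ)) 1 := fun _ _ => rfl

omit [Fintype G] in
theorem Itg_tr (g : G) : Itg (tr g) := fun f hf x => hf (x * g)

theorem Itg_sm (S : Subgroup G) : Itg (sm S) := fun f hf x => by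
  classical
  choose z hz using hf
  refine ⟨∑ h : S, z (x * h), ?_⟩
  rw [sm_apply, Int.cast_sum]
  exact sum_congr rfl fun h _ => hz _

omit [Fintype G] in
theorem Itg_comp {T U : (G → ℂ) →ₗ[ℂ] (G → ℂ)} (hT : Itg T) (hU : Itg U) : Itg (T ∘ₗ U) :=
  fun f hf x => hT (U f) (hU f hf) x

omit [Fintype G] in
theorem Itg_sub {T U : (G → ℂ) →ₗ[ℂ] (G → ℂ)} (hT : Itg T) (hU : Itg U) : Itg (T - U) := fun f hf x => by
  obtain ⟨y, hy⟩ := hT f hf x
  obtain ⟨z, hz⟩ := hU f hf x
  refine ⟨y - z, ?_⟩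
  show T f x - U f x = _
  rw [hy, hz]
  push_cast
  ring

omit [Fintype G] in
theorem Itg_one : Itg (1 : (G → ℂ) →ₗ[ℂ] (G → ℂ)) := fun f hf x => hf x

open Classical in
/-- the indicator function of `g` -/
noncomputable def dl (g : G) : G → ℂ := fun x => if x = g then 1 else 0

/-- the kernel of an operator -/
noncomputable def kr (T : (G → ℂ) →ₗ[ℂ] (G → ℂ)) (g : G) : ℂ := T (dl g) 1

omit [Fintype G] in
theorem kr_eq {T : (G → ℂ) →ₗ[ℂ] (G → ℂ)} (hT : LI T) (g x : G) : T (dl g) x = kr T (x⁻¹ * g) := by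
  classical
  have h1 := hT x (dl g) 1
  have h2 : (fun z => dl g (x * z)) = dl (x⁻¹ * g) := by
    funext z
    unfold dl
    by_cases h : x * z = g
    · rw [if_pos h, if_pos (by rw [← h, inv_mul_cancel_left])]
    · rw [if_neg h, if_neg (fun h2 => h (by rw [h2, mul_inv_cancel_left]))]
  rw [mul_one, h2] at h1
  exact h1.symm

theorem sum_dl (f : G → ℂ) (g : G) : ∑ x, f x * dl g x = f g := by
  classical
  unfold dl
  rw [sum_eq_single g]
  · rw [if_pos rfl, mul_one]
  · intro x _ hx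
    rw [if_neg hx, mul_zero]
  · intro h
    exact absurd (mem_univ g) h

/-- the kernel of a selfadjoint operator is symmetric -/
theorem kr_symm {T : (G → ℂ) →ₗ[ℂ] (G → ℂ)} (hT : LI T) (hA : Adj T T) (g : G) : kr T g⁻¹ = kr T g := by
  have h1 := hA (dl g) (dl 1)
  rw [sum_dl] at h1
  have h2 : ∑ x, dl g x * T (dl 1) x = T (dl 1) g := by
    rw [← sum_dl (T (dl 1)) g]
    exact sum_congr rfl fun x _ => mul_comm _ _
  rw [h2, kr_eq hT 1 g, mul_one] at h1
  unfold kr at h1 ⊢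
  exact h1.symm

/-- the trace -/
theorem trace_eq {T : (G → ℂ) →ₗ[ℂ] (G → ℂ)} (hT : LI T) :
    LinearMap.trace ℂ (G → ℂ) T = Nat.card G * kr T 1 := by
  classical
  rw [LinearMap.trace_eq_matrix_trace ℂ (Pi.basisFun ℂ G), Matrix.trace]
  have h1 : ∀ g : G, Matrix.diag (LinearMap.toMatrix (Pi.basisFun ℂ G) (Pi.basisFun ℂ G) T) g = kr T 1 := by
    intro g
    rw [Matrix.diag_apply, LinearMap.toMatrix_apply, Pi.basisFun_apply, Pi.basisFun_repr]
    have h2 : (Pi.single g 1 : G → ℂ) = dl g := by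
      funext x
      unfold dl
      rw [Pi.single_apply]
    rw [h2, kr_eq hT g g, inv_mul_cancel]
  rw [sum_congr rfl fun g _ => h1 g, sum_const, card_univ, nsmul_eq_mul, ← Nat.card_eq_fintype_card]

/-- an idempotent selfadjoint real kernel is at most its value at `1` -/
theorem kr_le {Q : (G → ℂ) →ₗ[ℂ] (G → ℂ)} (hL : LI Q) (hA : Adj Q Q) (hQ : ∀ f, Q (Q f) = Q f)
    (q : G → ℝ) (hq : ∀ g, kr Q g = q g) (g : G) : |q g| ≤ q 1 := by
  classical
  have hsym : ∀ x, q x⁻¹ = q x := by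
    intro x
    have h1 := kr_symm hL hA x
    rw [hq, hq] at h1
    exact_mod_cast h1
  have key : ∀ g : G, q g = ∑ x : G, q (x⁻¹ * g) * q x := by
    intro g
    have h1 := hA (Q (dl g)) (dl 1)
    rw [sum_dl, hQ] at h1
    have h2 : (q g : ℂ) = ∑ x, (q (x⁻¹ * g) : ℂ) * (q x : ℂ) := by
      rw [← hq g]
      unfold kr
      rw [h1]
      refine sum_congr rfl fun x _ => ?_
      rw [kr_eq hL g x, kr_eq hL 1 x, mul_one, hq, hq, hsym]
    exact_mod_cast h2
  have h1 : q 1 = ∑ x : G, q x ^ 2 := by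
    rw [key 1]
    refine sum_congr rfl fun x _ => ?_
    rw [mul_one, hsym, sq]
  have h2 : ∑ x : G, q (x⁻¹ * g) ^ 2 = ∑ x : G, q x ^ 2 := by
    refine Fintype.sum_equiv ((Equiv.inv G).trans (Equiv.mulRight g)) _ _ fun x => ?_
    rfl
  rw [key g]
  refine (abs_sum_le_sum_abs _ _).trans ?_
  have h3 : ∀ x : G, |q (x⁻¹ * g) * q x| ≤ (q (x⁻¹ * g) ^ 2 + q x ^ 2) / 2 := by
    intro x
    rw [abs_mul]
    nlinarith [sq_nonneg (|q (x⁻¹ * g)| - |q x|), sq_abs (q (x⁻¹ * g)), sq_abs (q x)]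
  refine (sum_le_sum fun x _ => h3 x).trans ?_
  rw [← sum_div, sum_add_distrib, h2, ← h1]
  linarith

end Pool.Agent.H78.WL
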