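import Pool.Agent.H78.WL.Main
import Pool.Agent.H52.WP.Abs

set_option autoImplicit false

/-!
PROJECT WL (MP_bf82d2_ag, walls).  The dichotomy of helper52 for the two pair groups.
-/

namespace Pool.Agent.H78.WL

open Finset Module
open Pool.Agent.H52.VC (RC mem_RC dim_RC)
open Pool.Agent.H52.WP (ind ind_mem ind_not dichotomy card_le sum_ind_one)

variable {G : Type} [Group G] [Fintype G]

/-- the kernel of `K` is real -/
noncomputable def kR (a b c : G) (g : G) : ℝ := (kr (KK a b c) g).re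

theorem kR_spec (a b c g : G) : ∃ z : ℤ, kR a b c g = (Nat.card (Subgroup.zpowers a) : ℝ)⁻¹ * z ∧
    kr (KK a b c) g = (kR a b c g : ℂ) := by
  obtain ⟨z, hz⟩ := kr_int a b c g
  have h1 : kr (KK a b c) g = (((Nat.card (Subgroup.zpowers a) : ℝ)⁻¹ * z : ℝ) : ℂ) := by
    rw [hz]
    push_cast
    rfl
  have h2 : kR a b c g = (Nat.card (Subgroup.zpowers a) : ℝ)⁻¹ * z := by
    unfold kR
    rw [h1, Complex.ofReal_re]
  exact ⟨z, h2, by rw [h1, h2]⟩

theorem kR_eq (a b c g : G) : kr (KK a b c) g = (kR a b c g : ℂ) := (kR_spec a b c g).choose_spec.2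

theorem kR_int (a b c g : G) : ∃ z : ℤ, (Nat.card (Subgroup.zpowers a) : ℝ) * kR a b c g = z := by
  obtain ⟨z, hz, -⟩ := kR_spec a b c g
  have h1 : (Nat.card (Subgroup.zpowers a) : ℝ) ≠ 0 := by exact_mod_cast Nat.card_pos.ne'
  exact ⟨z, by rw [hz, mul_inv_cancel_left₀ h1]⟩

theorem kR_symm (a b c g : G) : kR a b c g⁻¹ = kR a b c g := by
  unfold kR
  rw [kr_symm (LI_KK a b c) (Adj_KK a b c)]

theorem kR_conv (a b c : G) (m : ℝ) (hKK : ∀ f, KK a b c (KK a b c f) = (m : ℂ) • KK a b c f) (g : G) :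
    ∑ x, kR a b c x * kR a b c (x⁻¹ * g) = m * kR a b c g := by
  have h1 := Adj_KK a b c (KK a b c (dl g)) (dl 1)
  rw [sum_dl, hKK] at h1
  have h2 : (m * kR a b c g : ℂ) = ∑ x, (kR a b c x : ℂ) * (kR a b c (x⁻¹ * g) : ℂ) := by
    have h3 : ((m : ℂ) • KK a b c (dl g)) 1 = m * kR a b c g := by
      rw [← kR_eq]
      rfl
    rw [← h3, h1]
    refine sum_congr rfl fun x _ => ?_
    rw [kr_eq (LI_KK a b c) g x, kr_eq (LI_KK a b c) 1 x, mul_one, kR_eq, kR_eq, kR_symm, mul_comm]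
  exact_mod_cast h2.symm

theorem kR_A (a b c : G) : ∀ y ∈ Subgroup.zpowers a, ∀ g, kR a b c (g * y) = kR a b c g := by
  classical
  intro y hy g
  unfold kR kr
  have h4 : sm (Subgroup.zpowers a) (dl (g * y)) = sm (Subgroup.zpowers a) (dl g) := by
    funext z
    rw [sm_dl, sm_dl]
    have h5 : z⁻¹ * (g * y) ∈ Subgroup.zpowers a ↔ z⁻¹ * g ∈ Subgroup.zpowers a := by
      rw [← mul_assoc]
      exact (Subgroup.zpowers a).mul_mem_cancel_right hy
    by_cases h6 : z⁻¹ * g ∈ Subgroup.zpowers a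
    · rw [if_pos h6, if_pos (h5.2 h6)]
    · rw [if_neg h6, if_neg (fun h7 => h6 (h5.1 h7))]
  rw [KK_apply, KK_apply, h4]

theorem sum_ind_eq (H : Subgroup G) (f : G → ℂ) (x : G) :
    ∑ y, f (x * y) * (ind H y : ℂ) = sm H f x := by
  classical
  rw [sm_apply, ← Finset.sum_subtype (univ.filter fun y : G => y ∈ H) (p := fun y => y ∈ H) (by simp)
    (fun y => f (x * y)), sum_filter]
  refine sum_congr rfl fun y _ => ?_
  by_cases h : y ∈ H
  · rw [if_pos h, ind_mem h]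
    simp
  · rw [if_neg h, ind_not h]
    simp

/-- sum over the cosets of a subgroup `L` on which all `K f` have sum zero -/
theorem kR_H (a b c : G) (L : Subgroup G) (hL : ∀ x, sm L (KK a b c (dl 1)) x = 0) (g : G) :
    ∑ x, kR a b c (g * x) * ind L x = 0 := by
  have h1 := hL g
  rw [← sum_ind_eq] at h1
  have h2 : ((∑ x, kR a b c (g * x) * ind L x : ℝ) : ℂ) = 0 := by
    push_cast
    rw [← h1]
    refine sum_congr rfl fun x _ => ?_
    rw [kr_eq (LI_KK a b c) 1 (g * x), mul_one, kR_eq, kR_symm]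
  exact_mod_cast h2

/-- the eigenvalue is a positive real number -/
theorem exists_m (a b c : G) (H H' : Subgroup G) (ha : a ∈ H) (hc : c ∈ H) (ha' : a ∈ H') (hcb : c⁻¹ * b ∈ H')
    (hM : ∀ k ∈ Subgroup.zpowers b, ∀ h ∈ Subgroup.zpowers a, c ≠ k * h)
    (μ : ℂ) (hμ : ∀ f ∈ RC a H H', ∀ x, wall a b c f x = μ * f x) :
    ∃ m : ℝ, 0 < m ∧ μ = m ∧ 1 / (Nat.card (Subgroup.zpowers a) : ℝ) - 1 / Nat.card H - 1 / Nat.card H' ≤
      kap a b c / m := by
  classical
  obtain ⟨hκ2, hκe, hκ⟩ := kr_one a b c hM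
  set κ := kap a b c with hκdef
  set n := Nat.card G with hn
  have hn0 : (0 : ℝ) < n := by exact_mod_cast Nat.card_pos
  set r := finrank ℂ (RC a H H') with hr
  have hκ0 : (0 : ℝ) < κ := by
    have : 0 < κ := by omega
    exact_mod_cast this
  have htr := trace_KK a b c H H' ha hc ha' hcb μ hμ
  rw [trace_eq (LI_KK a b c), hκ] at htr
  have hr0 : (r : ℂ) ≠ 0 := by
    intro h0
    rw [h0, mul_zero] at htr
    have h1 : (n : ℂ) ≠ 0 := by exact_mod_cast hn0.ne'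
    have h2 : (κ : ℂ) ≠ 0 := by exact_mod_cast hκ0.ne'
    exact mul_ne_zero h1 h2 htr
  have hr1 : (0 : ℝ) < r := by
    have : r ≠ 0 := by exact_mod_cast hr0
    exact_mod_cast Nat.pos_of_ne_zero this
  refine ⟨n * κ / r, by positivity, ?_, ?_⟩
  · push_cast
    rw [eq_div_iff hr0]
    exact htr.symm
  · have hdim := dim_RC a H H'
    rw [← hn, ← hr] at hdim
    rw [Nat.card_zpowers]
    have h1 : (κ : ℝ) / (n * κ / r) = r / n := by field_simp
    rw [h1, le_div_iff₀ hn0]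
    have h3 : (1 / (orderOf a : ℝ) - 1 / (Nat.card H : ℝ) - 1 / (Nat.card H' : ℝ)) * n =
        n / orderOf a - n / Nat.card H - n / Nat.card H' := by ring
    rw [h3]
    exact hdim

/-- one half of the dichotomy -/
theorem half (a b c : G) (H H' : Subgroup G) (hA : Subgroup.zpowers a ≤ H) (hA' : Subgroup.zpowers a ≤ H')
    (hg : H ⊔ H' = ⊤) (hM : ∀ k ∈ Subgroup.zpowers b, ∀ h ∈ Subgroup.zpowers a, c ≠ k * h)
    (hH : ∀ x, sm H (KK a b c (dl 1)) x = 0) (hH' : ∀ x, sm H' (KK a b c (dl 1)) x = 0)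
    (m : ℝ) (hm : 0 < m) (hKK : ∀ f, KK a b c (KK a b c f) = (m : ℂ) • KK a b c f)
    (hd : 1 / (Nat.card (Subgroup.zpowers a) : ℝ) - 1 / Nat.card H - 1 / Nat.card H' ≤ kap a b c / m)
    (hb : 4 * orderOf a ^ 2 * kap a b c + 2 * orderOf a < Nat.card H') :
    H' = ⊤ ∧ Nat.card H ≤ orderOf a ^ 2 * kap a b c + orderOf a := by
  obtain ⟨hκ2, hκe, hκ⟩ := kr_one a b c hM
  have hK1 : kR a b c 1 = kap a b c := by
    unfold kR
    rw [hκ]
    simp
  have hpos : 0 < kR a b c 1 := by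
    rw [hK1]
    have : 0 < kap a b c := by omega
    exact_mod_cast this
  have hea : Nat.card (Subgroup.zpowers a) = orderOf a := Nat.card_zpowers a
  have he0 : (0 : ℝ) < orderOf a := by exact_mod_cast orderOf_pos a
  have hh0 : (0 : ℝ) < Nat.card H := by exact_mod_cast Nat.card_pos
  have hh0' : (0 : ℝ) < Nat.card H' := by exact_mod_cast Nat.card_pos
  have h2e : 2 * orderOf a ≤ Nat.card H := by
    by_contra hcon
    push Not at hcon
    obtain ⟨k, hk⟩ := Subgroup.card_dvd_of_le hA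
    rw [hea] at hk
    have hk1 : k = 1 := by
      have h1 : k < 2 := by
        by_contra h2
        push Not at h2
        have := Nat.mul_le_mul_left (orderOf a) h2
        omega
      have h2 : k ≠ 0 := by
        intro h3
        rw [h3, mul_zero] at hk
        exact Nat.card_pos.ne' hk
      omega
    have hHA : Subgroup.zpowers a = H := by
      refine Subgroup.eq_of_le_of_card_ge hA ?_
      rw [hk, hk1, mul_one, hea]
    have h3 := kR_H a b c H hH 1
    have h4 : ∑ x, kR a b c (1 * x) * ind H x = kR a b c 1 * Nat.card H := by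
      rw [← sum_ind_one H, mul_sum]
      refine sum_congr rfl fun x _ => ?_
      by_cases hx : x ∈ H
      · rw [kR_A a b c x (by rw [hHA]; exact hx) 1]
      · rw [ind_not hx, mul_zero, mul_zero]
    rw [h4] at h3
    exact absurd h3 (mul_pos hpos hh0).ne'
  have hb' : (4 * (orderOf a : ℝ) ^ 2 * kap a b c + 2 * orderOf a) < Nat.card H' := by exact_mod_cast hb
  have h2e' : (2 * (orderOf a : ℝ)) ≤ Nat.card H := by exact_mod_cast h2e
  have h2me : 2 * m * Nat.card (Subgroup.zpowers a) < Nat.card H' := by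
    rw [hea] at hd ⊢
    set T : ℝ := (Nat.card H' : ℝ) with hT
    set e : ℝ := (orderOf a : ℝ) with he
    set κ : ℝ := (kap a b c : ℝ) with hκr
    have hκ0 : 0 ≤ κ := by rw [hκr]; positivity
    have h5 : 1 / (Nat.card H : ℝ) ≤ 1 / (2 * e) := one_div_le_one_div_of_le (by linarith) h2e'
    have h6 : 1 / (2 * e) - 1 / T ≤ κ / m := by
      have h7 : 1 / e - 1 / (2 * e) = 1 / (2 * e) := by field_simp; ring
      linarith
    have hT2 : 0 < T - 2 * e := by nlinarith [mul_nonneg (mul_nonneg (by norm_num : (0:ℝ) ≤ 4) (sq_nonneg e)) hκ0]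
    have h8 : m * (T - 2 * e) ≤ 2 * e * T * κ := by
      rw [le_div_iff₀ hm] at h6
      have h9 : (1 / (2 * e) - 1 / T) * m * (2 * e * T) = m * (T - 2 * e) := by field_simp
      have h10 := mul_le_mul_of_nonneg_right h6 (by positivity : 0 ≤ 2 * e * T)
      rw [h9] at h10
      linarith
    have h11 : 2 * m * e * (T - 2 * e) < T * (T - 2 * e) := by
      have h12 : 2 * m * e * (T - 2 * e) ≤ 4 * e ^ 2 * κ * T := by
        have := mul_le_mul_of_nonneg_left h8 (by positivity : (0:ℝ) ≤ 2 * e)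
        linarith
      have h13 : 4 * e ^ 2 * κ * T < (T - 2 * e) * T := mul_lt_mul_of_pos_right (by linarith) hh0'
      linarith
    exact lt_of_mul_lt_mul_right h11 hT2.le
  have hd' : 1 / (Nat.card (Subgroup.zpowers a) : ℝ) - 1 / Nat.card H - 1 / Nat.card H' ≤ kR a b c 1 / m := by
    rw [hK1]
    exact hd
  obtain ⟨h14, h15⟩ := dichotomy (K := kR a b c) hA hA' hg hm (kR_symm a b c) (kR_conv a b c m hKK)
    (kR_A a b c) (kR_H a b c H hH) (kR_H a b c H' hH') (kR_int a b c) hpos hd' h2me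
  refine ⟨h14, ?_⟩
  have h16 := card_le hA hm hpos (kR_int a b c) h15
  rw [hK1, hea] at h16
  have h17 : (Nat.card H : ℝ) ≤ ((orderOf a ^ 2 * kap a b c + orderOf a : ℕ) : ℝ) := by
    push_cast
    linarith
  exact_mod_cast h17

/-- The dichotomy. -/
theorem plus (a b c : G) (H H' : Subgroup G) (ha : a ∈ H) (hc : c ∈ H) (ha' : a ∈ H') (hcb : c⁻¹ * b ∈ H')
    (hg : H ⊔ H' = ⊤) (hM : ∀ k ∈ Subgroup.zpowers b, ∀ h ∈ Subgroup.zpowers a, c ≠ k * h)
    (μ : ℂ) (hμ : ∀ f ∈ RC a H H', ∀ x, wall a b c f x = μ * f x) :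
    (Nat.card H ≤ 4 * orderOf a ^ 2 * kap a b c + 2 * orderOf a ∧
      Nat.card H' ≤ 4 * orderOf a ^ 2 * kap a b c + 2 * orderOf a) ∨
    (Nat.card H ≤ orderOf a ^ 2 * kap a b c + orderOf a ∧ H' = ⊤) ∨
    (Nat.card H' ≤ orderOf a ^ 2 * kap a b c + orderOf a ∧ H = ⊤) := by
  obtain ⟨m, hm, hμm, hd⟩ := exists_m a b c H H' ha hc ha' hcb hM μ hμ
  have hKK : ∀ f, KK a b c (KK a b c f) = (m : ℂ) • KK a b c f := fun f => by
    rw [← hμm]
    exact KK_RC a b c H H' μ hμ _ (KK_mem a b c H H' ha hc ha' hcb f)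
  have hmem := KK_mem a b c H H' ha hc ha' hcb (dl 1)
  rw [mem_RC] at hmem
  have hH : ∀ x, sm H (KK a b c (dl 1)) x = 0 := hmem.2.1
  have hH' : ∀ x, sm H' (KK a b c (dl 1)) x = 0 := hmem.2.2
  have hA : Subgroup.zpowers a ≤ H := by rw [Subgroup.zpowers_le]; exact ha
  have hA' : Subgroup.zpowers a ≤ H' := by rw [Subgroup.zpowers_le]; exact ha'
  by_cases h1 : 4 * orderOf a ^ 2 * kap a b c + 2 * orderOf a < Nat.card H'
  · right; left
    have h2 := half a b c H H' hA hA' hg hM hH hH' m hm hKK hd h1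
    exact ⟨h2.2, h2.1⟩
  · by_cases h3 : 4 * orderOf a ^ 2 * kap a b c + 2 * orderOf a < Nat.card H
    · right; right
      have h2 := half a b c H' H hA' hA (by rw [sup_comm]; exact hg) hM hH' hH m hm hKK (by linarith) h3
      exact ⟨h2.2, h2.1⟩
    · left
      exact ⟨by omega, by omega⟩

/-- The final theorem. -/
theorem final (s : Fin 4 → G) (hprod : s 0 * s 1 * s 2 * s 3 = 1) (hgen : Subgroup.closure (Set.range s) = ⊤)
    (e κ : ℕ) (he : e = orderOf (s 0 * s 1)) (hκ : κ = kap (s 0 * s 1) (s 1 * s 2) (s 1))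
    (H H' : Subgroup G) (hH : H = Subgroup.closure {s 0, s 1}) (hH' : H' = Subgroup.closure {s 2, s 3})
    (hM : ∀ k ∈ Subgroup.zpowers (s 1 * s 2), ∀ h ∈ Subgroup.zpowers (s 0 * s 1), s 1 ≠ k * h)
    (μ : ℂ) (hμ : ∀ f ∈ RC (s 0 * s 1) H H', ∀ x, wall (s 0 * s 1) (s 1 * s 2) (s 1) f x = μ * f x) :
    κ ≤ 2 * e ∧ 1 ≤ (e : ℝ) * (e * κ + 1) * (1 / (Nat.card H : ℝ) + 1 / (Nat.card H' : ℝ)) ∧
      ((Nat.card H ≤ 4 * e ^ 2 * κ + 2 * e ∧ Nat.card H' ≤ 4 * e ^ 2 * κ + 2 * e) ∨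
        (Nat.card H ≤ e ^ 2 * κ + e ∧ H' = ⊤) ∨ (Nat.card H' ≤ e ^ 2 * κ + e ∧ H = ⊤)) := by
  have m0 : s 0 ∈ H := by rw [hH]; exact Subgroup.subset_closure (Or.inl rfl)
  have m1 : s 1 ∈ H := by rw [hH]; exact Subgroup.subset_closure (Or.inr rfl)
  have m2 : s 2 ∈ H' := by rw [hH']; exact Subgroup.subset_closure (Or.inl rfl)
  have m3 : s 3 ∈ H' := by rw [hH']; exact Subgroup.subset_closure (Or.inr rfl)
  have ha : s 0 * s 1 ∈ H' := by
    have h1 : s 0 * s 1 = (s 2 * s 3)⁻¹ := by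
      rw [eq_inv_iff_mul_eq_one, ← mul_assoc, hprod]
    rw [h1]
    exact Subgroup.inv_mem _ (Subgroup.mul_mem _ m2 m3)
  have hcb : (s 1)⁻¹ * (s 1 * s 2) ∈ H' := by
    rw [inv_mul_cancel_left]
    exact m2
  have hg : H ⊔ H' = ⊤ := by
    rw [eq_top_iff, ← hgen, Subgroup.closure_le]
    rintro _ ⟨i, rfl⟩
    have h1 : H ≤ H ⊔ H' := le_sup_left
    have h2 : H' ≤ H ⊔ H' := le_sup_right
    fin_cases i
    · exact h1 m0
    · exact h1 m1
    · exact h2 m2
    · exact h2 m3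
  have h3 := plus (s 0 * s 1) (s 1 * s 2) (s 1) H H' (Subgroup.mul_mem _ m0 m1) m1 ha hcb hg hM μ hμ
  obtain ⟨-, hke, -⟩ := kr_one (s 0 * s 1) (s 1 * s 2) (s 1) hM
  rw [Nat.card_zpowers] at hke
  have h4 := main (s 0 * s 1) (s 1 * s 2) (s 1) H H' (Subgroup.mul_mem _ m0 m1) m1 ha hcb hM μ hμ
  rw [← he, ← hκ] at h3 h4 hke
  refine ⟨hke, ?_, h3⟩
  have he0 : (0 : ℝ) < e := by rw [he]; exact_mod_cast orderOf_pos (s 0 * s 1)
  have hpos : (0 : ℝ) < (e : ℝ) * (e * κ + 1) := by positivity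
  rw [div_le_iff₀ hpos] at h4
  linarith

end Pool.Agent.H78.WL
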